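import Mathlib
import Pool.Agent.H854R3.CR.Stmts2

set_option autoImplicit false

/-! TaskP of the project H854-CRX (MP_70de85_al). -/

namespace Pool.Agent.H462R6.CRP

open Pool.Agent.H854R3.CR

variable {R : Type} [NonUnitalRing R]

theorem mul_mem_Pw (a b : R) : a * b ∈ Pw R 1 :=
  AddSubgroup.subset_closure ⟨a, trivial, b, rfl⟩

/-- decomposition of an element -/
theorem decomp {X Y : R} (h : NonUnitalSubring.closure ({X, Y} : Set R) = ⊤) (u : R) :
    ∃ (α β : ℤ) (q : R), q ∈ Pw R 1 ∧ u = α • X + β • Y + q := by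
  have hu : u ∈ NonUnitalSubring.closure ({X, Y} : Set R) := by rw [h]; trivial
  induction hu using NonUnitalSubring.closure_induction with
  | mem x hx =>
    rcases hx with rfl | hx
    · exact ⟨1, 0, 0, zero_mem _, by simp⟩
    · rw [Set.mem_singleton_iff] at hx
      subst hx
      exact ⟨0, 1, 0, zero_mem _, by simp⟩
  | zero => exact ⟨0, 0, 0, zero_mem _, by simp⟩
  | add x y _ _ hx hy =>
    obtain ⟨a, b, q, hq, rfl⟩ := hx
    obtain ⟨c, d, r, hr, rfl⟩ := hy
    exact ⟨a + c, b + d, q + r, add_mem hq hr, by module⟩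
  | neg x _ hx =>
    obtain ⟨a, b, q, hq, rfl⟩ := hx
    exact ⟨-a, -b, -q, neg_mem hq, by module⟩
  | mul x y _ _ _ _ => exact ⟨0, 0, x * y, mul_mem_Pw x y, by simp⟩

theorem two_mul_right (h3 : ∀ a b c : R, 2 • (a * b * c) = 0) {q : R} (hq : q ∈ Pw R 1) (c : R) :
    2 • (q * c) = 0 := by
  change q ∈ AddSubgroup.closure {z | ∃ a ∈ Pw R 0, ∃ b : R, z = a * b} at hq
  induction hq using AddSubgroup.closure_induction with
  | mem x hx =>
    obtain ⟨a, _, b, rfl⟩ := hx
    exact h3 a b c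
  | zero => simp
  | add x y _ _ hx hy => rw [add_mul, smul_add, hx, hy, add_zero]
  | neg x _ hx => rw [neg_mul, smul_neg, hx, neg_zero]

theorem two_mul_left (h3 : ∀ a b c : R, 2 • (a * b * c) = 0) {q : R} (hq : q ∈ Pw R 1) (c : R) :
    2 • (c * q) = 0 := by
  change q ∈ AddSubgroup.closure {z | ∃ a ∈ Pw R 0, ∃ b : R, z = a * b} at hq
  induction hq using AddSubgroup.closure_induction with
  | mem x hx =>
    obtain ⟨a, _, b, rfl⟩ := hx
    rw [← mul_assoc]
    exact h3 c a b
  | zero => simp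
  | add x y _ _ hx hy => rw [mul_add, smul_add, hx, hy, add_zero]
  | neg x _ hx => rw [mul_neg, smul_neg, hx, neg_zero]

theorem comm_eq {X Y : R} (h3 : ∀ a b c : R, 2 • (a * b * c) = 0) (α β γ δ : ℤ) {q r : R}
    (hq : q ∈ Pw R 1) (hr : r ∈ Pw R 1) :
    2 • ((α • X + β • Y + q) * (γ • X + δ • Y + r) - (γ • X + δ • Y + r) * (α • X + β • Y + q)) =
      (α * δ - β * γ) • (2 • (X * Y - Y * X)) := by
  have e : 2 • ((α • X + β • Y + q) * (γ • X + δ • Y + r) -
      (γ • X + δ • Y + r) * (α • X + β • Y + q)) =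
      (α * δ - β * γ) • (2 • (X * Y - Y * X)) +
      (2 • (q * (γ • X + δ • Y)) - 2 • ((γ • X + δ • Y) * q) + 2 • ((α • X + β • Y) * r) -
        2 • (r * (α • X + β • Y)) + 2 • (q * r) - 2 • (r * q)) := by
    simp only [mul_add, add_mul, smul_mul_assoc, mul_smul_comm]
    module
  rw [e, two_mul_right h3 hq, two_mul_left h3 hq, two_mul_left h3 hr, two_mul_right h3 hr,
    two_mul_right h3 hq, two_mul_right h3 hr]
  simp

theorem four_smul_int (h4 : ∀ r : R, 4 • r = 0) (m : ℤ) (r : R) : (4 * m) • r = 0 := by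
  rw [mul_smul]
  exact_mod_cast h4 (m • r)

theorem taskP : TaskP := by
  intro R _ X Y hR u v
  obtain ⟨hgen, h4, h3, hinv, -, -⟩ := hR
  obtain ⟨α, β, q, hq, rfl⟩ := decomp hgen u
  obtain ⟨γ, δ, r, hr, rfl⟩ := decomp hgen v
  have hc := comm_eq (X := X) (Y := Y) h3 α β γ δ hq hr
  refine ⟨⟨_, hc⟩, fun hne => ?_⟩
  rw [hc] at hne
  set k : ℤ := α * δ - β * γ with hk
  have hodd : Odd k := by
    by_contra h
    rw [Int.not_odd_iff_even] at h
    obtain ⟨m, hm⟩ := h
    apply hne
    have e : k • (2 • (X * Y - Y * X)) = (4 * m) • (X * Y - Y * X) := by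
      rw [hm]; module
    rw [e]
    exact four_smul_int h4 _ _
  obtain ⟨m, hm⟩ := hodd
  set U := α • X + β • Y + q with hU
  set V := γ • X + δ • Y + r with hV
  have e1 : X + k • (δ • q - β • r) = k • (δ • U - β • V) := by
    have h := four_smul_int h4 (m ^ 2 + m) X
    have e : k • (δ • U - β • V) = (k * k) • X + k • (δ • q - β • r) := by
      rw [hU, hV]
      have : k = α * δ - β * γ := hk
      conv_rhs => rw [this]
      conv_lhs => rw [this]
      module
    have e' : (k * k) • X = (4 * (m ^ 2 + m)) • X + X := by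
      rw [hm]; module
    rw [e, e', h, zero_add]
  have e2 : Y + k • (α • r - γ • q) = k • (α • V - γ • U) := by
    have h := four_smul_int h4 (m ^ 2 + m) Y
    have e : k • (α • V - γ • U) = (k * k) • Y + k • (α • r - γ • q) := by
      rw [hU, hV]
      have : k = α * δ - β * γ := hk
      conv_rhs => rw [this]
      conv_lhs => rw [this]
      module
    have e' : (k * k) • Y = (4 * (m ^ 2 + m)) • Y + Y := by
      rw [hm]; module
    rw [e, e', h, zero_add]
  have ha : k • (δ • q - β • r) ∈ Pw R 1 :=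
    zsmul_mem (sub_mem (zsmul_mem hq _) (zsmul_mem hr _)) _
  have hb : k • (α • r - γ • q) ∈ Pw R 1 :=
    zsmul_mem (sub_mem (zsmul_mem hr _) (zsmul_mem hq _)) _
  have hU' : U ∈ NonUnitalSubring.closure ({U, V} : Set R) :=
    NonUnitalSubring.subset_closure (by simp)
  have hV' : V ∈ NonUnitalSubring.closure ({U, V} : Set R) :=
    NonUnitalSubring.subset_closure (by simp)
  rw [eq_top_iff, ← hinv _ ha _ hb, NonUnitalSubring.closure_le]
  rintro z (rfl | hz)
  · rw [SetLike.mem_coe, e1]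
    exact zsmul_mem (sub_mem (zsmul_mem hU' _) (zsmul_mem hV' _)) _
  · rw [Set.mem_singleton_iff] at hz
    rw [SetLike.mem_coe, hz, e2]
    exact zsmul_mem (sub_mem (zsmul_mem hV' _) (zsmul_mem hU' _)) _

end Pool.Agent.H462R6.CRP
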