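import Mathlib
import Pool.Agent.H607R3.PS.Stmts
import Pool.Agent.Helper834.EC.Dim1

set_option autoImplicit false

/-! TaskDimP of the project H607-PS: the dimension count for the second ring. -/

namespace Pool.Agent.H462R6.DimP

open Pool.Agent.H607R3.PS Pool.Agent.H607R3.PS.RR IsLocalRing

section lower

variable (T : Type) [CommRing T] (α β γ : T)

/-- the first component -/
abbrev A0 : Type := RR T α β γ ⧸ (Ideal.span {s} : Ideal (RR T α β γ))

theorem injA0 : Function.Injective (algebraMap T (A0 T α β γ)) := by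
  rw [injective_iff_map_eq_zero]
  intro t ht
  have h : (emb t : RR T α β γ) ∈ (Ideal.span {s} : Ideal (RR T α β γ)) :=
    Ideal.Quotient.eq_zero_iff_mem.1 ht
  rw [Ideal.mem_span_singleton'] at h
  obtain ⟨u, hu⟩ := h
  have ha := congrArg RR.a hu
  have hc := congrArg RR.c hu
  simp only [s, mul_a, mul_c, emb_a, emb_c, mul_zero, add_zero] at ha hc
  have h0 : u.a = 0 := by linear_combination -hc
  rw [h0, zero_mul] at ha
  exact ha.symm

/-- the surjection onto the power series ring over the first component -/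
noncomputable def toPS : RP T α β γ →+* PowerSeries (A0 T α β γ) :=
  Ideal.Quotient.lift _ (PowerSeries.map (Ideal.Quotient.mk (Ideal.span {s} : Ideal (RR T α β γ))))
    (by
      intro f hf
      rw [Ideal.mem_span_singleton'] at hf
      obtain ⟨g, rfl⟩ := hf
      rw [map_mul, map_mul, PowerSeries.map_C,
        Ideal.Quotient.eq_zero_iff_mem.2 (Ideal.mem_span_singleton_self s), map_zero, zero_mul,
        mul_zero])

theorem toPS_surj : Function.Surjective (toPS T α β γ) := by
  apply Ideal.Quotient.lift_surjective_of_surjective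
  intro f
  refine ⟨PowerSeries.mk fun n => (Ideal.Quotient.mk_surjective (PowerSeries.coeff n f)).choose, ?_⟩
  ext n
  rw [PowerSeries.coeff_map, PowerSeries.coeff_mk]
  exact (Ideal.Quotient.mk_surjective (PowerSeries.coeff n f)).choose_spec

theorem dim_lower (h : ringKrullDim T = 3) : (4 : WithBot ℕ∞) ≤ ringKrullDim (RP T α β γ) := by
  have h1 : ringKrullDim T ≤ ringKrullDim (A0 T α β γ) :=
    Pool.Agent.Helper834.EC.ringKrullDim_ge_of_integral (injA0 T α β γ)
  have h2 : ringKrullDim (A0 T α β γ) + 1 ≤ ringKrullDim (PowerSeries (A0 T α β γ)) :=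
    ringKrullDim_succ_le_ringKrullDim_powerseries
  have h3 := ringKrullDim_le_of_surjective (toPS T α β γ) (toPS_surj T α β γ)
  calc (4 : WithBot ℕ∞) = 3 + 1 := by norm_num
    _ ≤ ringKrullDim (A0 T α β γ) + 1 := by
        rw [← h]
        gcongr
    _ ≤ _ := h2.trans h3

end lower

section upper

variable {T : Type} [CommRing T] {α β γ : T} {A : Type} [CommRing A]

/-- what is needed about the quotient ring -/
structure Pack (r : RR T α β γ →+* A) (X : A) : Prop where
  sX : r s * X = 0
  hz : r z ^ 2 = 0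
  hy : r y ^ 3 = 0
  hx : r x ^ 2 + r s ^ 2 * r z = 0
  hw : r w ^ 4 + r s * r y * r z = 0
  dec : ∀ a : A, ∃ (u : RR T α β γ) (b : A), a = r u + X * b
  unit : ∀ b : A, IsUnit (1 - b * X)

variable {r : RR T α β γ →+* A} {X : A} (P : Pack r X)

include P

theorem z_mem {p : Ideal A} (hp : p.IsPrime) : r z ∈ p :=
  hp.mem_of_pow_mem 2 (P.hz ▸ p.zero_mem)

theorem y_mem {p : Ideal A} (hp : p.IsPrime) : r y ∈ p :=
  hp.mem_of_pow_mem 3 (P.hy ▸ p.zero_mem)

theorem x_mem {p : Ideal A} (hp : p.IsPrime) : r x ∈ p := by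
  have h2 : (r x) ^ 2 ∈ p := by
    rw [eq_neg_of_add_eq_zero_left P.hx]
    exact p.neg_mem (p.mul_mem_left _ (z_mem P hp))
  exact hp.mem_of_pow_mem 2 h2

theorem w_mem {p : Ideal A} (hp : p.IsPrime) : r w ∈ p := by
  have h2 : (r w) ^ 4 ∈ p := by
    rw [eq_neg_of_add_eq_zero_left P.hw]
    exact p.neg_mem (p.mul_mem_left _ (z_mem P hp))
  exact hp.mem_of_pow_mem 4 h2

theorem approx {p : Ideal A} (hp : p.IsPrime) (hX : X ∈ p) (a : A) :
    ∃ t : T, a - r (emb t) ∈ p := by
  obtain ⟨u, b, rfl⟩ := P.dec a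
  refine ⟨u.a, ?_⟩
  have h3 : r u - r (emb u.a) = r (emb u.b) * r x + r (emb u.c) * r w := by
    have h := congrArg r (decomp u)
    rw [map_add, map_add, map_mul, map_mul] at h
    linear_combination h
  have e : r u + X * b - r (emb u.a) =
      r (emb u.b) * r x + r (emb u.c) * r w + X * b := by
    linear_combination h3
  rw [e]
  exact p.add_mem (p.add_mem (p.mul_mem_left _ (x_mem P hp)) (p.mul_mem_left _ (w_mem P hp)))
    (p.mul_mem_right _ hX)

theorem α_mem {p : Ideal A} (hp : p.IsPrime) : r (emb α) ∈ p := by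
  rw [← x_sub_y, map_sub]
  exact p.sub_mem (x_mem P hp) (y_mem P hp)

theorem β_mem {p : Ideal A} (hp : p.IsPrime) : r (emb β) ∈ p := by
  rw [← z_eq]
  exact z_mem P hp

theorem γ_mem {p : Ideal A} (hp : p.IsPrime) (hs : r s ∈ p) : r (emb γ) ∈ p := by
  rw [← s_add_w, map_add]
  exact p.add_mem hs (w_mem P hp)

theorem s_mem {p : Ideal A} (hp : p.IsPrime) (hs : r (emb γ) ∈ p) : r s ∈ p := by
  rw [← s_add_w, map_add] at hs
  exact (p.add_mem_iff_left (w_mem P hp)).1 hs

theorem isMax [IsLocalRing T] (hmax : maximalIdeal T = Ideal.span {α, β, γ}) {p : Ideal A}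
    (hp : p.IsPrime) (hX : X ∈ p) (hs : r s ∈ p) : p.IsMaximal := by
  rw [Ideal.isMaximal_iff]
  refine ⟨fun h => hp.ne_top ((Ideal.eq_top_iff_one p).2 h), ?_⟩
  intro J a hJ ha haJ
  obtain ⟨t, ht⟩ := approx P hp hX a
  have hle : maximalIdeal T ≤ Ideal.comap (r.comp emb) p := by
    rw [hmax, Ideal.span_le]
    rintro u (rfl | rfl | rfl)
    · exact α_mem P hp
    · exact β_mem P hp
    · exact γ_mem P hp hs
  have htu : IsUnit t := by
    by_contra hnu
    have h1 : t ∈ maximalIdeal T := (mem_maximalIdeal t).2 hnu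
    have h2 : r (emb t) ∈ p := hle h1
    apply ha
    have := p.add_mem ht h2
    simpa using this
  obtain ⟨v, hv⟩ := htu.exists_right_inv
  have h3 : r (emb t) ∈ J := by
    have := J.sub_mem haJ (hJ ht)
    simpa using this
  have h4 : (1 : A) = r (emb v) * r (emb t) := by
    rw [← map_mul, ← map_mul, mul_comm v t, hv, map_one, map_one]
  rw [h4]
  exact J.mul_mem_left _ h3

theorem X_mem {M : Ideal A} (hM : M.IsMaximal) : X ∈ M := by
  by_contra h
  obtain ⟨b, i, hi, hbi⟩ := hM.exists_inv h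
  have h1 : i = 1 - b * X := by
    rw [← hbi]
    ring
  have h3 : IsUnit i := h1 ▸ P.unit b
  exact hM.ne_top (Ideal.eq_top_of_isUnit_mem _ hi h3)

theorem γ_mem_max [IsLocalRing T] (hmax : maximalIdeal T = Ideal.span {α, β, γ}) {M : Ideal A}
    (hM : M.IsMaximal) : r (emb γ) ∈ M := by
  by_contra h
  obtain ⟨b, i, hi, hbi⟩ := hM.exists_inv h
  obtain ⟨t, ht⟩ := approx P hM.isPrime (X_mem P hM) b
  have hγ : γ ∈ maximalIdeal T := by
    rw [hmax]
    exact Ideal.subset_span (by simp)
  have h1 : IsUnit (1 - t * γ) := by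
    by_contra hnu
    have h2 : 1 - t * γ ∈ maximalIdeal T := (mem_maximalIdeal _).2 hnu
    have h3 : (1 : T) ∈ maximalIdeal T := by
      have := (maximalIdeal T).add_mem h2 ((maximalIdeal T).mul_mem_left t hγ)
      simpa using this
    exact (Ideal.ne_top_iff_one _).1 (maximalIdeal.isMaximal T).ne_top h3
  have h2 : r (emb (1 - t * γ)) ∈ M := by
    have e : r (emb (1 - t * γ)) = i + (b - r (emb t)) * r (emb γ) := by
      rw [map_sub, map_sub, map_one, map_one, map_mul, map_mul, ← hbi]
      ring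
    rw [e]
    exact M.add_mem hi (M.mul_mem_right _ ht)
  have h3 : IsUnit (r (emb (1 - t * γ))) := (h1.map emb).map _
  exact hM.ne_top (Ideal.eq_top_of_isUnit_mem _ h2 h3)

theorem dim_upper [IsLocalRing T] [IsNoetherianRing A]
    (hmax : maximalIdeal T = Ideal.span {α, β, γ}) : ringKrullDim A ≤ 1 := by
  rw [ringKrullDim_le_iff_isMaximal_height_le]
  intro M hM
  have hs := s_mem P hM.isPrime (γ_mem_max P hmax hM)
  have hX := X_mem P hM
  have hmin : M ∈ (Ideal.span {r s + X}).minimalPrimes := by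
    refine ⟨⟨hM.isPrime, ?_⟩, ?_⟩
    · rw [Ideal.span_singleton_le_iff_mem]
      exact M.add_mem hs hX
    · rintro p ⟨hp, hle⟩ hpM
      rw [Ideal.span_singleton_le_iff_mem] at hle
      have h0 : r s * X ∈ p := by
        rw [P.sX]; exact p.zero_mem
      have hboth : r s ∈ p ∧ X ∈ p := by
        rcases hp.mem_or_mem h0 with h | h
        · exact ⟨h, (p.add_mem_iff_right h).1 hle⟩
        · exact ⟨(p.add_mem_iff_left h).1 hle, h⟩
      have hmaxp := isMax P hmax hp hboth.2 hboth.1
      exact (hmaxp.eq_of_le hM.ne_top hpM).ge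
  have h1 := Ideal.height_le_one_of_isPrincipal_of_mem_minimalPrimes _ M hmin
  exact_mod_cast h1

end upper

section pack

variable (T : Type) [CommRing T] (α β γ : T)

/-- the projection -/
noncomputable def π : PowerSeries (RR T α β γ) →+* RP T α β γ ⧸ cP T α β γ :=
  (Ideal.Quotient.mk (cP T α β γ)).comp (Ideal.Quotient.mk _)

theorem π_surj : Function.Surjective (π T α β γ) :=
  Ideal.Quotient.mk_surjective.comp Ideal.Quotient.mk_surjective

/-- the map from the first ring -/
noncomputable def rr : RR T α β γ →+* RP T α β γ ⧸ cP T α β γ :=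
  (π T α β γ).comp PowerSeries.C

theorem gens_zero (i : Fin 7) :
    gens (rr T α β γ x) (rr T α β γ y) (rr T α β γ z) (rr T α β γ w) (rr T α β γ s) i = 0 := by
  have h : gens (toRP (x : RR T α β γ)) (toRP y) (toRP z) (toRP w) (toRP s) i ∈ cP T α β γ :=
    Ideal.subset_span ⟨i, rfl⟩
  have h2 := Ideal.Quotient.eq_zero_iff_mem.2 h
  have e : ∀ u : RR T α β γ, rr T α β γ u = (Ideal.Quotient.mk (cP T α β γ)) (toRP u) :=
    fun _ => rfl
  rw [e, e, e, e, e, ← h2]
  fin_cases i <;> simp [gens]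

theorem pack : Pack (rr T α β γ) (π T α β γ PowerSeries.X) where
  sX := by
    show π T α β γ (PowerSeries.C s) * π T α β γ PowerSeries.X = 0
    rw [← map_mul]
    show (Ideal.Quotient.mk (cP T α β γ)) (Ideal.Quotient.mk _ _) = 0
    rw [Ideal.Quotient.eq_zero_iff_mem.2 (Ideal.mem_span_singleton_self _), map_zero]
  hz := gens_zero T α β γ 1
  hy := gens_zero T α β γ 0
  hx := gens_zero T α β γ 3
  hw := gens_zero T α β γ 4
  dec := by
    intro a
    obtain ⟨f, rfl⟩ := π_surj T α β γ a
    have h1 : (PowerSeries.X : PowerSeries (RR T α β γ)) ∣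
        f - PowerSeries.C (PowerSeries.constantCoeff f) := by
      rw [PowerSeries.X_dvd_iff]
      simp
    obtain ⟨g, hg⟩ := h1
    refine ⟨PowerSeries.constantCoeff f, π T α β γ g, ?_⟩
    show π T α β γ f = π T α β γ (PowerSeries.C _) + _
    rw [← map_mul, ← map_add, ← hg]
    congr 1
    ring
  unit := by
    intro b
    obtain ⟨f, rfl⟩ := π_surj T α β γ b
    have h2 : IsUnit (1 - f * PowerSeries.X : PowerSeries (RR T α β γ)) := by
      rw [PowerSeries.isUnit_iff_constantCoeff]
      simp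
    have h3 := h2.map (π T α β γ)
    rwa [map_sub, map_one, map_mul] at h3

end pack

theorem taskDimP : TaskDimP := by
  intro T _ _ _ _ α β γ hB
  have h1 := dim_lower T α β γ hB.dim
  have h2 : ringKrullDim (RP T α β γ ⧸ cP T α β γ) ≤ 1 := dim_upper (pack T α β γ) hB.max
  calc (2 : WithBot ℕ∞) + ringKrullDim (RP T α β γ ⧸ cP T α β γ) ≤ 2 + 1 := by gcongr
    _ < 4 := by norm_num
    _ ≤ _ := h1

end Pool.Agent.H462R6.DimP
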